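import Pool.Agent.H546.T123
import Pool.Agent.H546.T123small

set_option autoImplicit false

/-!
# `∑ C(2k,k)² C(3k,k) / (-48)^(3k)` modulo `p²` (assertion (a) of Q1)

The proof: the sum is the square of a Legendre polynomial modulo `p²` (Clausen); the elliptic curve
`y² = x³ + (6A-27)x + (A²-18A+54)`, `A = 2 - 5√41/16`, with complex multiplication by the order of discriminant
`-123`, has isogenies of degrees `11` and `3` to its conjugate; over the Witt vectors of an algebraic closure of
`ZMod p` a combination of these isogenies of degree `p` lifts the Frobenius, and comparing expansions modulo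
`p²` gives the value of the Legendre polynomial modulo `p²`. In the last case the Hasse invariant vanishes.
-/

open Finset

namespace Pool.Agent.Results.MP_225c33_nt.FortyEightCubed

/-- the sum `S_p = ∑_{j<p} C(2j,j)² C(3j,j) (-48)^(-3j)` -/
def S (p : ℕ) : ℚ :=
  ∑ j ∈ range p, (((2 * j).choose j : ℚ) ^ 2 * ((3 * j).choose j : ℚ)) / (-48) ^ (3 * j)

/-- congruence modulo `p²` of rational numbers: `(a - b) / p²` has denominator prime to `p` -/
def Cong (p : ℕ) (a b : ℚ) : Prop := p.Coprime ((a - b) / (p : ℚ) ^ 2).den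

local instance fact41a : Fact (Nat.Prime 41) := ⟨by norm_num⟩

theorem leg3_p {p : ℕ} [hp : Fact p.Prime] (h3 : p ≠ 3) :
    (p % 3 = 1 ∧ jacobiSym p 3 = 1) ∨ (p % 3 = 2 ∧ jacobiSym p 3 = -1) := by
  have h0 : p % 3 ≠ 0 := by
    intro h0
    have := (Nat.prime_dvd_prime_iff_eq Nat.prime_three hp.out).mp (Nat.dvd_of_mod_eq_zero h0)
    omega
  have h : jacobiSym p 3 = legendreSym 3 p := (jacobiSym.legendreSym.to_jacobiSym 3 p).symm
  rw [h, legendreSym.mod]
  have hc : ((p : ℤ) % ((3 : ℕ) : ℤ)) = ((p % 3 : ℕ) : ℤ) := by norm_cast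
  rw [hc, Pool.Agent.H546.leg3_aux _ (Nat.mod_lt _ (by norm_num)) h0]
  have : p % 3 = 1 ∨ p % 3 = 2 := by omega
  rcases this with h | h
  · left; rw [if_pos h]; exact ⟨h, rfl⟩
  · right; rw [if_neg (by omega)]; exact ⟨h, rfl⟩

theorem leg41_41 : legendreSym 41 ((41 : ℕ) : ℤ) = 0 := by decide +kernel

theorem result (p : ℕ) (hp : p.Prime) (h3 : 3 < p) :
    (jacobiSym p 3 = 1 → jacobiSym p 41 = 1 → ∀ x y : ℤ, 4 * (p : ℤ) = x ^ 2 + 123 * y ^ 2 →
      Cong p (S p) (x ^ 2 - 2 * p)) ∧
    (jacobiSym p 3 = -1 → jacobiSym p 41 = -1 → ∀ x y : ℤ, 4 * (p : ℤ) = 3 * x ^ 2 + 41 * y ^ 2 →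
      Cong p (S p) (2 * p - 3 * x ^ 2)) ∧
    (jacobiSym p 123 = -1 → Cong p (S p) 0) := by
  have : Fact p.Prime := ⟨hp⟩
  have hp2 : p ≠ 2 := by omega
  have hM : ¬ (p : ℤ) ∣ -110592 := by
    refine Pool.Agent.H546.ndvd_fac [(2, 12), (3, 3)] ?_ (by norm_num)
    simp
    exact ⟨⟨by norm_num, hp2⟩, ⟨by norm_num, by omega⟩⟩
  obtain ⟨wi, hwi⟩ := Pool.Agent.H546.inv_exists hM
  have tr : ∀ E : ℤ, ∑ k ∈ range p, (k.centralBinom : ZMod (p ^ 2)) *
      ((Pool.Agent.Q267.MW.u3 k : ℕ) : ZMod (p ^ 2)) * wi ^ k = ((E : ℤ) : ZMod (p ^ 2)) →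
      Cong p (S p) (E : ℚ) := by
    intro E hE
    have h := Pool.Agent.H546.tr3 hM hwi E hE
    have e : S p = ∑ k ∈ range p, (((2 * k).choose k : ℚ) ^ 2 * ((3 * k).choose k : ℚ)) / (((-110592 : ℤ)) : ℚ) ^ k := by
      unfold S
      refine sum_congr rfl fun k _ => ?_
      rw [pow_mul]
      norm_num
    unfold Cong
    rw [e]
    exact h
  have h41 : jacobiSym p 41 = legendreSym 41 p := (jacobiSym.legendreSym.to_jacobiSym 41 p).symm
  have h123 : jacobiSym p 123 = jacobiSym p 3 * jacobiSym p 41 := by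
    rw [← jacobiSym.mul_right]
  rw [h123, h41]
  have small : p < 23 → (∀ x y : ℤ, 4 * (p : ℤ) = x ^ 2 + 123 * y ^ 2 → False) ∧
      ((p = 11 ∨ p = 17) ∨ ∀ x y : ℤ, 4 * (p : ℤ) = 3 * x ^ 2 + 41 * y ^ 2 → False) := by
    intro hlt
    have hy0 : ∀ x : ℤ, 4 * (p : ℤ) = x ^ 2 → False := by
      intro x hx
      have h7 : x < 10 := by nlinarith
      have h8 : -10 < x := by nlinarith
      have hpp : p ∣ x.natAbs ^ 2 := by
        have : (x.natAbs : ℤ) ^ 2 = 4 * p := by rw [Int.natAbs_sq]; linarith
        have h9 : x.natAbs ^ 2 = 4 * p := by exact_mod_cast this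
        exact ⟨4, by rw [h9]; ring⟩
      have h10 := hp.dvd_of_dvd_pow hpp
      obtain ⟨c, hc⟩ := h10
      have h11 : (x.natAbs : ℤ) ^ 2 = 4 * p := by rw [Int.natAbs_sq]; linarith
      rw [hc] at h11
      push_cast at h11
      have hp0 : (0 : ℤ) < p := by omega
      have h12 : (p : ℤ) * (p * c ^ 2) = p * 4 := by linear_combination h11
      have h13 : (p : ℤ) * c ^ 2 = 4 := mul_left_cancel₀ hp0.ne' h12
      have h14 : (p : ℤ) ∣ 4 := ⟨c ^ 2, h13.symm⟩
      have h15 : p ∣ 4 := by exact_mod_cast h14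
      have h16 := Nat.le_of_dvd (by norm_num) h15
      have : p = 4 := by omega
      rw [this] at hp
      exact absurd hp (by norm_num)
    constructor
    · intro x y hxy
      have h1 : y ^ 2 = 0 := by nlinarith [sq_nonneg x, sq_nonneg y]
      rw [h1] at hxy
      exact hy0 x (by linarith)
    · by_cases h : p = 11 ∨ p = 17
      · exact Or.inl h
      · right
        intro x y hxy
        have hyb : y ^ 2 < 3 := by nlinarith [sq_nonneg x]
        have hy2 : y < 2 := by nlinarith
        have hy3 : -2 < y := by nlinarith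
        have hxb : x < 6 := by nlinarith [sq_nonneg y]
        have hxb2 : -6 < x := by nlinarith [sq_nonneg y]
        have hpne : ∀ n : ℕ, ¬ n.Prime → p ≠ n := by
          rintro n hn rfl
          exact hn hp
        have := hpne 12 (by norm_num)
        have := hpne 14 (by norm_num)
        interval_cases y <;> interval_cases x <;> omega
  by_cases hp11 : p = 11
  · subst hp11
    have j3 : jacobiSym ((11 : ℕ) : ℤ) 3 = -1 := by
      rcases leg3_p (p := 11) (by norm_num) with h | h
      · exact absurd h.1 (by norm_num)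
      · exact h.2
    have j41 : legendreSym 41 ((11 : ℕ) : ℤ) = -1 := by decide +kernel
    rw [j3, j41]
    refine ⟨fun h => absurd h (by norm_num), fun _ _ x y hxy => ?_, fun h => absurd h (by norm_num)⟩
    have hs := Pool.Agent.H546.t123_11 wi hwi
    have hy : y ^ 2 = 1 := by
      have h1 : y ^ 2 ≤ 1 := by
        have : 41 * y ^ 2 ≤ 44 := by push_cast at hxy; nlinarith [sq_nonneg x]
        omega
      have h2 : y ^ 2 ≠ 0 := by
        intro h0; rw [h0] at hxy; push_cast at hxy; omega
      have h3 := sq_nonneg y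
      omega
    have hx : x ^ 2 = 1 := by rw [hy] at hxy; push_cast at hxy; omega
    have := tr 19 hs
    have hxq : (x : ℚ) ^ 2 = 1 := by exact_mod_cast hx
    rw [hxq]
    push_cast at this ⊢
    norm_num at this ⊢
    exact this
  by_cases hp17 : p = 17
  · subst hp17
    have j3 : jacobiSym ((17 : ℕ) : ℤ) 3 = -1 := by
      rcases leg3_p (p := 17) (by norm_num) with h | h
      · exact absurd h.1 (by norm_num)
      · exact h.2
    have j41 : legendreSym 41 ((17 : ℕ) : ℤ) = -1 := by decide +kernel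
    rw [j3, j41]
    refine ⟨fun h => absurd h (by norm_num), fun _ _ x y hxy => ?_, fun h => absurd h (by norm_num)⟩
    have hs := Pool.Agent.H546.t123_17 wi hwi
    have hy : y ^ 2 = 1 := by
      have h1 : y ^ 2 ≤ 1 := by
        have : 41 * y ^ 2 ≤ 68 := by push_cast at hxy; nlinarith [sq_nonneg x]
        omega
      have h2 : y ^ 2 ≠ 0 := by
        intro h0; rw [h0] at hxy; push_cast at hxy; omega
      have h3 := sq_nonneg y
      omega
    have hx : x ^ 2 = 9 := by rw [hy] at hxy; push_cast at hxy; omega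
    have := tr 7 hs
    have hxq : (x : ℚ) ^ 2 = 9 := by exact_mod_cast hx
    rw [hxq]
    push_cast at this ⊢
    norm_num at this ⊢
    exact this
  by_cases hp41 : p = 41
  · subst hp41
    rw [leg41_41]
    refine ⟨fun _ h => absurd h (by norm_num), fun _ h => absurd h (by norm_num), fun h => ?_⟩
    rw [mul_zero] at h
    exact absurd h (by norm_num)
  obtain ⟨m1, m2, m3⟩ := Pool.Agent.H546.t123_main p h3 hp11 hp41 hwi
  refine ⟨fun h3' h41' x y hxy => ?_, fun h3' h41' x y hxy => ?_, fun h => ?_⟩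
  · have hm : p % 3 = 1 := by
      rcases leg3_p (p := p) (by omega) with h | h
      · exact h.1
      · rw [h.2] at h3'; norm_num at h3'
    have hbig : 23 ≤ p := by
      by_contra hlt
      exact (small (by omega)).1 x y hxy
    have := tr _ (m1 x y hbig hm h41' hxy)
    push_cast at this
    exact this
  · have hm : p % 3 = 2 := by
      rcases leg3_p (p := p) (by omega) with h | h
      · rw [h.2] at h3'; norm_num at h3'
      · exact h.1
    have hbig : 23 ≤ p := by
      by_contra hlt
      rcases (small (by omega)).2 with h | h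
      · rcases h with h | h
        · exact hp11 h
        · exact hp17 h
      · exact h x y hxy
    have := tr _ (m2 x y hbig hm h41' hxy)
    push_cast at this
    exact this
  · have hc : (p % 3 = 1 ∧ legendreSym 41 p = -1) ∨ (p % 3 = 2 ∧ legendreSym 41 p = 1) := by
      rcases leg3_p (p := p) (by omega) with h' | h'
      · left; rw [h'.2] at h; exact ⟨h'.1, by linarith⟩
      · right; rw [h'.2] at h; exact ⟨h'.1, by linarith⟩
    have := tr 0 (by rw [m3 hc]; push_cast; rfl)
    push_cast at this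
    exact this

end Pool.Agent.Results.MP_225c33_nt.FortyEightCubed
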